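import Pool.Agent.KS6_19.HE.R

/-!
# Cubic graphs with Hamiltonian extension number 5, 6 and 7, of all large even orders

For every even `n ≥ 20` there is a cubic Hamiltonian graph of order `n` with Hamiltonian extension
number `5`; the same holds for the number `6` and all even `n ≥ 18`, and for the number `7` and all
even `n ≥ 230`.

Idea. Call a cubic graph good for `k` if it has girth at least `k` and each path of order at most
`k` lies on a Hamiltonian cycle. Two good graphs can be glued along the neighbourhoods of two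
deleted vertices (star product), and the result is good. If a good graph contains a `k`-cycle `C`
then a path of order `k + 1` which runs through all but one of the vertices of `C` lies on no
Hamiltonian cycle. Finitely many good graphs, with tables of Hamiltonian cycles, are checked by the
kernel.
-/

set_option autoImplicit false

namespace Pool.Agent.Results.MP_b9f640_co.AllLargeOrders

open SimpleGraph

/-- Every path of order `i` of `G` lies on some Hamiltonian cycle of `G`. -/
def PathsExtend {V : Type} [DecidableEq V] (G : SimpleGraph V) (i : ℕ) : Prop :=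
  ∀ (u v : V) (P : G.Walk u v), P.IsPath → P.support.length = i →
    ∃ (a : V) (C : G.Walk a a), C.IsHamiltonianCycle ∧
      (∀ x ∈ P.support, x ∈ C.support) ∧ ∀ e ∈ P.edges, e ∈ C.edges

/-- `k` is the Hamiltonian extension number of `G`: the largest `k` with `1 ≤ k ≤ |V|` such that
for every `1 ≤ i ≤ k` every path of order `i` lies on a Hamiltonian cycle. -/
def IsHE {V : Type} [Fintype V] [DecidableEq V] (G : SimpleGraph V) (k : ℕ) : Prop :=
  IsGreatest {j | 1 ≤ j ∧ j ≤ Fintype.card V ∧ ∀ i, 1 ≤ i → i ≤ j → PathsExtend G i} k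

/-- For every even `n ≥ 20` (respectively `n ≥ 18`, `n ≥ 230`) there is a `3`-regular Hamiltonian
graph of order `n` with Hamiltonian extension number `5` (respectively `6`, `7`). -/
theorem result (k n : ℕ) (hn : Even n)
    (h : (k = 5 ∧ 20 ≤ n) ∨ (k = 6 ∧ 18 ≤ n) ∨ (k = 7 ∧ 230 ≤ n)) :
    ∃ (V : Type) (_ : Fintype V) (_ : DecidableEq V) (G : SimpleGraph V),
      Fintype.card V = n ∧ (∀ v, (G.neighborSet v).ncard = 3) ∧ G.IsHamiltonian ∧ IsHE G k := by
  have key : Pool.Agent.KS6_19.HE.SS k (n - 2) := by
    obtain ⟨e, he⟩ := hn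
    rcases h with ⟨rfl, h⟩ | ⟨rfl, h⟩ | ⟨rfl, h⟩
    · exact Pool.Agent.KS6_19.HE.ss5 _ ⟨e - 1, by omega⟩ (by omega)
    · exact Pool.Agent.KS6_19.HE.ss6 _ ⟨e - 1, by omega⟩ (by omega)
    · exact Pool.Agent.KS6_19.HE.ss7 _ ⟨e - 1, by omega⟩ (by omega)
  obtain ⟨V, i1, i2, G, h1, h2, h3⟩ := key
  exact ⟨V, i1, i2, G, by omega, h2.isHE (by omega) h3⟩

end Pool.Agent.Results.MP_b9f640_co.AllLargeOrders
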